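import Pool.Agent.J6H29.ST.Stm

/-!
# The good set (`S_Good`)
-/

set_option autoImplicit false
set_option maxHeartbeats 400000

namespace Pool.Agent.J6H73.STG

open NumberField Filter Topology IsDedekindDomain Pool.Agent.W401.Cheb Pool.Agent.R401.Sup
open Pool.Agent.W569.FM Pool.Agent.R401.Img Pool.Agent.R401.Eng Pool.Agent.R401.Sup2
open Pool.Agent.R401.Sup3 Pool.Agent.R401.Tr1 Pool.Agent.R401.Tr3 Module Pool.Agent.R401.Tr5

variable {K : Type} [Field K] [NumberField K]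

theorem two {p : ℕ} [Fact p.Prime] (T : GK K → ℚ_[p]) (w : ℤ)
    (P : Set (HeightOneSpectrum (𝓞 K))) (a : HeightOneSpectrum (𝓞 K) → ℚ)
    (b : HeightOneSpectrum (𝓞 K) → 𝓞 ℚ) {d : ℕ} (hd : 0 < d)
    (hab : ∀ v ∈ P, (d : ℚ) * a v ^ 2 = (Ideal.absNorm v.asIdeal : ℚ) ^ w * b v)
    (S : Set (HeightOneSpectrum (𝓞 K))) (hS : S.Finite)
    (htr : ∀ v ∈ P, v ∉ S → ∀ g, IsFrob v g → T g = (a v : ℚ_[p])) (θ C ε : ℝ) (hε0 : 0 < ε)
    (hfreq : ∃ᶠ N : ℕ in atTop, dens (fun v => v ∉ P) N ≤ θ ∧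
      ∑ᶠ v ∈ {v : HeightOneSpectrum (𝓞 K) | Ideal.absNorm v.asIdeal ≤ N ∧ v ∈ P},
        ∑ σ : ℚ →+* ℂ, ‖σ (b v)‖ ≤ C * Nat.primeCounting N) :
    ∃ Y : Set ℚ_[p], Y.Finite ∧ (¬ (2 : ℤ) ∣ w → Y = {0}) ∧ ∃ᶠ N : ℕ in atTop,
      dens (fun v : HeightOneSpectrum (𝓞 K) =>
        ∃ g, IsFrob v g ∧ g ∉ GG T (cyc K p ℚ_[p]) w Y) N ≤ θ + 4 * ε := by
  classical
  obtain ⟨Y₀, hY₀, hYd⟩ := exists_finite ℚ P b C hε0
  have hpi : ∀ᶠ N : ℕ in atTop, 0 < Nat.primeCounting N :=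
    Nat.tendsto_primeCounting.eventually_gt_atTop 0
  have hdE : (d : ℚ) ≠ 0 := by exact_mod_cast hd.ne'
  have hp : ∀ᶠ N : ℕ in atTop, dens (fun v : HeightOneSpectrum (𝓞 K) => (p : 𝓞 K) ∈ v.asIdeal) N
      ≤ ε := by
    have h1 := dens_fin (fun v : HeightOneSpectrum (𝓞 K) => (p : 𝓞 K) ∈ v.asIdeal)
      (Pool.Agent.W352.ChAbs.over_le p (Fact.out : p.Prime)).1
    exact h1.eventually (ge_mem_nhds hε0)
  have hSd : ∀ᶠ N : ℕ in atTop, dens (fun v : HeightOneSpectrum (𝓞 K) => v ∈ S) N ≤ ε := by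
    have h1 := dens_fin (fun v : HeightOneSpectrum (𝓞 K) => v ∈ S) hS
    exact h1.eventually (ge_mem_nhds hε0)
  have ha : ∀ v ∈ P, a v ^ 2 = (Ideal.absNorm v.asIdeal : ℚ) ^ w * ((b v : ℚ) / d) := by
    intro v hv
    have h1 := hab v hv
    field_simp
    linear_combination h1
  by_cases hw : (2 : ℤ) ∣ w
  · set Y : Set ℚ_[p] := (fun y : 𝓞 ℚ => ((y : ℚ) : ℚ_[p]) / d) '' Y₀ with hY
    have hYf : Y.Finite := hY₀.image _
    have hbad : ∃ᶠ N : ℕ in atTop, dens (fun v : HeightOneSpectrum (𝓞 K) =>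
        ∃ g, IsFrob v g ∧ g ∉ GG T (cyc K p ℚ_[p]) w Y) N ≤ θ + 4 * ε := by
      refine (hfreq.and_eventually (hpi.and (hp.and hSd))).mono ?_
      rintro N ⟨⟨h1, h2⟩, h3, h4, h4'⟩
      have h5 := hYd N h3 h2
      have h6 : dens (fun v : HeightOneSpectrum (𝓞 K) =>
          ∃ g, IsFrob v g ∧ g ∉ GG T (cyc K p ℚ_[p]) w Y) N ≤
            dens (fun v => v ∉ P ∨ ((v ∈ P ∧ b v ∉ Y₀) ∨ ((p : 𝓞 K) ∈ v.asIdeal ∨ v ∈ S))) N := by
        refine dens_le ?_ N
        rintro v ⟨g, hg, hgG⟩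
        by_cases hvP : v ∈ P
        · right
          by_cases hvp : (p : 𝓞 K) ∈ v.asIdeal
          · exact Or.inr (Or.inl hvp)
          by_cases hvS : v ∈ S
          · exact Or.inr (Or.inr hvS)
          left
          refine ⟨hvP, fun hvY => hgG ⟨((b v : ℚ) : ℚ_[p]) / d, ⟨b v, hvY, rfl⟩, ?_⟩⟩
          rw [htr v hvP hvS g hg, ← Rat.cast_pow, ha v hvP, cyc_frob p ℚ_[p] hvp hg]
          push_cast
          rfl
        · exact Or.inl hvP
      have h7 := (h6.trans (card_or _ _ N)).trans (add_le_add_right ((card_or _ _ N).trans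
        (add_le_add_right (card_or _ _ N) _)) _)
      linarith
    exact ⟨Y, hYf, fun h => absurd hw h, hbad⟩
  · set R : HeightOneSpectrum (𝓞 K) → Prop := fun v => ∃ y ∈ hY₀.toFinset.filter (fun y => y ≠ 0),
      ∃ x : ℚ, x ^ 2 = (Ideal.absNorm v.asIdeal : ℚ) ^ w * ((y : ℚ) / d) with hR
    have hRlim : Tendsto (dens R) atTop (𝓝 0) := by
      have h1 : Tendsto (fun N => ∑ y ∈ hY₀.toFinset.filter (fun y => y ≠ 0),
          dens (fun v : HeightOneSpectrum (𝓞 K) =>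
            ∃ x : ℚ, x ^ 2 = (Ideal.absNorm v.asIdeal : ℚ) ^ w * ((y : ℚ) / d)) N) atTop (𝓝 0) := by
        have h2 := tendsto_finset_sum (hY₀.toFinset.filter (fun y => y ≠ 0)) (fun y hy =>
          dens_odd (K := K) ℚ (c := (y : ℚ) / d) (div_ne_zero (by
            have := (Finset.mem_filter.1 hy).2
            exact fun h0 => this (RingOfIntegers.ext h0)) hdE) hw)
        rwa [Finset.sum_const_zero] at h2
      refine squeeze_zero (fun N => ?_) (fun N => ?_) h1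
      · unfold dens
        positivity
      · exact dens_biUnion _ _ N
    have hbad : ∃ᶠ N : ℕ in atTop, dens (fun v : HeightOneSpectrum (𝓞 K) =>
        ∃ g, IsFrob v g ∧ g ∉ GG T (cyc K p ℚ_[p]) w {0}) N ≤ θ + 4 * ε := by
      refine (hfreq.and_eventually (hpi.and ((hRlim.eventually (ge_mem_nhds hε0)).and hSd))).mono ?_
      rintro N ⟨⟨h1, h2⟩, h3, h4, h4'⟩
      have h5 := hYd N h3 h2
      have h6 : dens (fun v : HeightOneSpectrum (𝓞 K) =>
          ∃ g, IsFrob v g ∧ g ∉ GG T (cyc K p ℚ_[p]) w {0}) N ≤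
            dens (fun v => v ∉ P ∨ ((v ∈ P ∧ b v ∉ Y₀) ∨ (R v ∨ v ∈ S))) N := by
        refine dens_le ?_ N
        rintro v ⟨g, hg, hgG⟩
        by_cases hvP : v ∈ P
        · right
          by_cases hvY : b v ∈ Y₀
          · right
            by_cases hvS : v ∈ S
            · exact Or.inr hvS
            left
            refine ⟨b v, ?_, a v, ha v hvP⟩
            rw [Finset.mem_filter, hY₀.mem_toFinset]
            refine ⟨hvY, fun h0 => hgG ⟨0, rfl, ?_⟩⟩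
            have h7 := ha v hvP
            rw [h0] at h7
            have h8 : a v ^ 2 = 0 := by
              rw [h7]
              simp
            rw [htr v hvP hvS g hg, pow_eq_zero_iff two_ne_zero |>.1 h8, Rat.cast_zero]
            ring
          · exact Or.inl ⟨hvP, hvY⟩
        · exact Or.inl hvP
      have h7 := (h6.trans (card_or _ _ N)).trans (add_le_add_right ((card_or _ _ N).trans
        (add_le_add_right (card_or _ _ N) _)) _)
      linarith
    exact ⟨{0}, Set.finite_singleton 0, fun _ => rfl, hbad⟩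

theorem main : Pool.Agent.J6H29.ST.S_Good := by
  classical
  intro K _ _ ℓ _ T B hB a w htr C hC θ d hd hP ε₀ hε₀
  obtain ⟨ε, hε⟩ : ∃ ε : ℝ, ε = ε₀ / 5 := ⟨_, rfl⟩
  have hε0 : 0 < ε := by
    rw [hε]
    positivity
  set P : Set (HeightOneSpectrum (𝓞 K)) :=
    {v | v ∉ B ∧ ∃ c : ℤ, (d : ℚ) * a v ^ 2 = (Ideal.absNorm v.asIdeal : ℚ) ^ w * c} with hPdef
  have hbe : ∀ v : HeightOneSpectrum (𝓞 K), ∃ c : ℤ, v ∈ P →
      (d : ℚ) * a v ^ 2 = (Ideal.absNorm v.asIdeal : ℚ) ^ w * c := by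
    intro v
    by_cases hv : v ∈ P
    · obtain ⟨c, hc⟩ := hv.2
      exact ⟨c, fun _ => hc⟩
    · exact ⟨0, fun h => absurd h hv⟩
  choose b hbv using hbe
  have hN0 : ∀ v : HeightOneSpectrum (𝓞 K), 0 < Ideal.absNorm v.asIdeal := fun v =>
    Nat.pos_of_ne_zero (fun h0 => v.ne_bot (Ideal.absNorm_eq_zero_iff.1 h0))
  have hbC : ∀ v ∈ P, |(b v : ℝ)| ≤ d * |C| := by
    intro v hv
    have h1 := hC v hv.1
    have h2 : (d : ℝ) * (a v : ℝ) ^ 2 = (Ideal.absNorm v.asIdeal : ℝ) ^ w * b v := by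
      have := congrArg (Rat.cast : ℚ → ℝ) (hbv v hv)
      push_cast at this
      exact this
    have h3 : (0 : ℝ) < (Ideal.absNorm v.asIdeal : ℝ) ^ w := by
      have : (0 : ℝ) < Ideal.absNorm v.asIdeal := by exact_mod_cast hN0 v
      positivity
    have hd' : (0 : ℝ) < d := by exact_mod_cast hd
    have h4 : 0 ≤ (b v : ℝ) := by
      by_contra hcon
      rw [not_le] at hcon
      have := mul_neg_of_pos_of_neg h3 hcon
      rw [← h2] at this
      have h5 : (0 : ℝ) ≤ d * (a v : ℝ) ^ 2 := by positivity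
      linarith
    rw [abs_of_nonneg h4]
    have h5 : (Ideal.absNorm v.asIdeal : ℝ) ^ w * b v ≤
        (Ideal.absNorm v.asIdeal : ℝ) ^ w * (d * |C|) := by
      rw [← h2]
      calc (d : ℝ) * (a v : ℝ) ^ 2 ≤ d * (C * (Ideal.absNorm v.asIdeal : ℝ) ^ w) :=
            mul_le_mul_of_nonneg_left h1 hd'.le
        _ ≤ d * (|C| * (Ideal.absNorm v.asIdeal : ℝ) ^ w) :=
            mul_le_mul_of_nonneg_left (mul_le_mul_of_nonneg_right (le_abs_self C) h3.le) hd'.le
        _ = _ := by ring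
    exact le_of_mul_le_mul_left h5 h3
  obtain ⟨Y, hY1, hY2, hY3⟩ := two (K := K) (p := ℓ) T w P a (fun v => (b v : 𝓞 ℚ)) (d := d) hd (by
      intro v hv
      have h2 : (((b v : 𝓞 ℚ) : 𝓞 ℚ) : ℚ) = (b v : ℚ) := by
        exact map_intCast (algebraMap (𝓞 ℚ) ℚ) (b v)
      rw [h2]
      exact hbv v hv)
    {v | (ℓ : 𝓞 K) ∈ v.asIdeal} (Pool.Agent.W352.ChAbs.over_le ℓ (Fact.out : ℓ.Prime)).1 (by
      intro v hv hvℓ g hg
      exact htr v hv.1 hvℓ g hg)
    (θ + ε) ((d * |C|) * (Module.finrank ℚ K + 1)) ε hε0 (by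
      have hBd : ∀ᶠ N : ℕ in atTop, dens (fun v : HeightOneSpectrum (𝓞 K) => v ∈ B) N ≤ ε :=
        (dens_fin (fun v : HeightOneSpectrum (𝓞 K) => v ∈ B) hB).eventually (ge_mem_nhds hε0)
      refine (hP.and_eventually (hBd.and ((dens_le_const (K := K) (fun _ => True)).and
        (Nat.tendsto_primeCounting.eventually_gt_atTop 0)))).mono ?_
      rintro N ⟨h1, h2, h3, h4⟩
      have h4' : (0 : ℝ) < Nat.primeCounting N := by exact_mod_cast h4
      constructor
      · have h5 : dens (fun v => v ∉ P) N ≤ dens (fun v : HeightOneSpectrum (𝓞 K) =>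
            (¬ ∃ c : ℤ, (d : ℚ) * a v ^ 2 = (Ideal.absNorm v.asIdeal : ℚ) ^ w * c) ∨ v ∈ B) N := by
          refine dens_le ?_ N
          intro v hv
          by_cases hvB : v ∈ B
          · exact Or.inr hvB
          · left
            intro hd
            exact hv ⟨hvB, hd⟩
        have h6 := h5.trans (card_or _ _ N)
        linarith
      · have hfinP : {v : HeightOneSpectrum (𝓞 K) | Ideal.absNorm v.asIdeal ≤ N ∧ v ∈ P}.Finite :=
          (Pool.Agent.W352.ChAbs.finite_le (K := K) N).subset fun v hv => hv.1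
        rw [finsum_mem_eq_finite_toFinset_sum _ hfinP]
        have h5 : ∀ v ∈ hfinP.toFinset, ∑ σ : ℚ →+* ℂ, ‖σ ((b v : 𝓞 ℚ) : ℚ)‖ ≤ d * |C| := by
          intro v hv
          rw [hfinP.mem_toFinset] at hv
          have h6 : ∀ σ : ℚ →+* ℂ, ‖σ ((b v : 𝓞 ℚ) : ℚ)‖ = |(b v : ℝ)| := by
            intro σ
            have h2 : (((b v : 𝓞 ℚ) : 𝓞 ℚ) : ℚ) = (b v : ℚ) := by
              exact map_intCast (algebraMap (𝓞 ℚ) ℚ) (b v)
            rw [h2, map_intCast, Complex.norm_intCast]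
          rw [Finset.sum_congr rfl fun σ _ => h6 σ, Finset.sum_const]
          have h7 : (Finset.univ : Finset (ℚ →+* ℂ)).card = 1 := by
            rw [Finset.card_univ]
            exact Fintype.card_eq_one_iff.2 ⟨algebraMap ℚ ℂ, fun σ => Subsingleton.elim _ _⟩
          rw [h7, one_smul]
          exact hbC v hv.2
        refine (Finset.sum_le_sum h5).trans ?_
        rw [Finset.sum_const, nsmul_eq_mul, mul_comm, mul_assoc ((d : ℝ) * |C|)]
        apply mul_le_mul_of_nonneg_left _ (by positivity)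
        have h8 : (hfinP.toFinset.card : ℝ) ≤ Nat.card {v : HeightOneSpectrum (𝓞 K) //
            Ideal.absNorm v.asIdeal ≤ N ∧ True} := by
          have h9 : hfinP.toFinset.card = {v : HeightOneSpectrum (𝓞 K) |
              Ideal.absNorm v.asIdeal ≤ N ∧ v ∈ P}.ncard :=
            (Set.ncard_eq_toFinset_card _ hfinP).symm
          rw [h9]
          have h10 : {v : HeightOneSpectrum (𝓞 K) | Ideal.absNorm v.asIdeal ≤ N ∧ v ∈ P}.ncard ≤
              {v : HeightOneSpectrum (𝓞 K) | Ideal.absNorm v.asIdeal ≤ N ∧ True}.ncard :=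
            Set.ncard_le_ncard (fun v hv => ⟨hv.1, trivial⟩)
              ((Pool.Agent.W352.ChAbs.finite_le (K := K) N).subset fun v hv => hv.1)
          exact_mod_cast h10
        refine h8.trans ?_
        unfold dens at h3
        rwa [div_le_iff₀ h4'] at h3)
  refine ⟨Y, hY1, hY2, hY3.mono fun N hN => ?_⟩
  have h5 : θ + ε + 4 * ε = θ + ε₀ := by
    rw [hε]
    ring
  rwa [h5] at hN

end Pool.Agent.J6H73.STG
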